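import Pool.Agent.W98.RB.Defs

/-!
# Tonelli for the line integrals (RB-TON)
-/

set_option autoImplicit false

open MeasureTheory Set Filter Topology
open scoped ENNReal NNReal

namespace Pool.Agent.W597.RB

open Pool.Agent.W98.RB

/-- points of the vertical sides -/
theorem side_mem {ϕ : ℝ → ℝ} {K : ℝ≥0} (h : LipschitzWith K ϕ) {x₀ ρ₀ ρ x y : ℝ} (h0 : 0 < ρ)
    (h1 : ρ < ρ₀) (hx : |x - x₀| = ρ) (hy : y ∈ Ioo (ϕ x) (ϕ x₀ + ((K : ℝ) + 1) * ρ)) :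
    (x, y) ∈ Om ϕ ∩ Bx x₀ (ϕ x₀) (K + 1) ρ₀ := by
  have hK : (0 : ℝ) ≤ K := K.2
  have hl := h.dist_le_mul x x₀
  rw [Real.dist_eq, Real.dist_eq, hx] at hl
  have hl' := abs_le.1 hl
  refine ⟨hy.1, ?_, ?_⟩
  · change |x - x₀| < ρ₀
    rw [hx]
    exact h1
  · change |y - ϕ x₀| < ((K : ℝ) + 1) * ρ₀
    have e1 : ((K : ℝ) + 1) * ρ < ((K : ℝ) + 1) * ρ₀ := by gcongr
    have e2 : (K : ℝ) * ρ ≤ ((K : ℝ) + 1) * ρ := by nlinarith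
    rw [abs_lt]
    constructor
    · linarith [hy.1, hl'.1]
    · linarith [hy.2]

/-- points of the top side -/
theorem top_mem {ϕ : ℝ → ℝ} {K : ℝ≥0} (h : LipschitzWith K ϕ) {x₀ ρ₀ ρ x : ℝ} (h0 : 0 < ρ)
    (h1 : ρ < ρ₀) (hx : x ∈ Ioo (x₀ - ρ) (x₀ + ρ)) :
    (x, ϕ x₀ + ((K : ℝ) + 1) * ρ) ∈ Om ϕ ∩ Bx x₀ (ϕ x₀) (K + 1) ρ₀ := by
  have hK : (0 : ℝ) ≤ K := K.2
  have hl := h.dist_le_mul x x₀
  have hxx : |x - x₀| < ρ := abs_lt.2 ⟨by linarith [hx.1], by linarith [hx.2]⟩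
  rw [Real.dist_eq, Real.dist_eq] at hl
  have hl' := abs_le.1 hl
  have e3 : (K : ℝ) * |x - x₀| ≤ K * ρ := by gcongr
  have e1 : ((K : ℝ) + 1) * ρ < ((K : ℝ) + 1) * ρ₀ := by gcongr
  refine ⟨?_, ?_, ?_⟩
  · change ϕ x < ϕ x₀ + ((K : ℝ) + 1) * ρ
    nlinarith [hl'.2]
  · change |x - x₀| < ρ₀
    linarith
  · change |ϕ x₀ + ((K : ℝ) + 1) * ρ - ϕ x₀| < ((K : ℝ) + 1) * ρ₀
    rw [add_sub_cancel_left, abs_of_pos (by positivity)]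
    exact e1

theorem measurableSet_reg {ϕ : ℝ → ℝ} (h : Continuous ϕ) (x₀ y₀ L ρ₀ : ℝ) :
    MeasurableSet (Om ϕ ∩ Bx x₀ y₀ L ρ₀) := by
  refine MeasurableSet.inter ?_ (MeasurableSet.inter ?_ ?_)
  · exact (isOpen_lt (h.comp continuous_fst) continuous_snd).measurableSet
  · have c1 : Continuous fun p : ℝ × ℝ => |p.1 - x₀| := by fun_prop
    exact (isOpen_lt c1 continuous_const).measurableSet
  · have c1 : Continuous fun p : ℝ × ℝ => |p.2 - y₀| := by fun_prop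
    exact (isOpen_lt c1 continuous_const).measurableSet

theorem meas_Ioo {f g : ℝ → ℝ} {F : ℝ × ℝ → ℝ≥0∞} (hf : Measurable f) (hg : Measurable g)
    (hF : Measurable F) : Measurable (fun ρ : ℝ => ∫⁻ y in Ioo (f ρ) (g ρ), F (ρ, y)) := by
  have h1 : MeasurableSet {p : ℝ × ℝ | f p.1 < p.2 ∧ p.2 < g p.1} :=
    (measurableSet_lt (hf.comp measurable_fst) measurable_snd).inter
      (measurableSet_lt measurable_snd (hg.comp measurable_fst))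
  have h2 : Measurable (fun ρ : ℝ =>
      ∫⁻ y, {p : ℝ × ℝ | f p.1 < p.2 ∧ p.2 < g p.1}.indicator F (ρ, y)) :=
    (hF.indicator h1).lintegral_prod_right'
  have e : (fun ρ : ℝ => ∫⁻ y in Ioo (f ρ) (g ρ), F (ρ, y)) = fun ρ : ℝ =>
      ∫⁻ y, {p : ℝ × ℝ | f p.1 < p.2 ∧ p.2 < g p.1}.indicator F (ρ, y) := by
    funext ρ
    rw [← lintegral_indicator measurableSet_Ioo]
    refine lintegral_congr fun y => ?_
    by_cases hy : y ∈ Ioo (f ρ) (g ρ)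
    · have hy' : (ρ, y) ∈ {p : ℝ × ℝ | f p.1 < p.2 ∧ p.2 < g p.1} := hy
      rw [indicator_of_mem hy, indicator_of_mem hy']
    · have hy' : (ρ, y) ∉ {p : ℝ × ℝ | f p.1 < p.2 ∧ p.2 < g p.1} := hy
      rw [indicator_of_notMem hy, indicator_of_notMem hy']
  rw [e]
  exact h2

theorem measurable_EL {ϕ : ℝ → ℝ} (h : Continuous ϕ) {a b : ℝ × ℝ → ℝ} (ha : Measurable a)
    (hb : Measurable b) (x₀ y₀ L : ℝ) : Measurable (EL ϕ x₀ y₀ L a b) := by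
  have hϕ := h.measurable
  have m1 : Measurable fun ρ : ℝ => ϕ (x₀ - ρ) := hϕ.comp (by fun_prop)
  have m2 : Measurable fun ρ : ℝ => ϕ (x₀ + ρ) := hϕ.comp (by fun_prop)
  refine Measurable.add (Measurable.add ?_ ?_) ?_
  · exact meas_Ioo (F := fun p => ‖b (x₀ - p.1, p.2)‖ₑ) m1 (by fun_prop)
      (hb.comp (by fun_prop : Measurable fun p : ℝ × ℝ => (x₀ - p.1, p.2))).enorm
  · exact meas_Ioo (F := fun p => ‖a (p.2, y₀ + L * p.1)‖ₑ) (by fun_prop) (by fun_prop)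
      (ha.comp (by fun_prop : Measurable fun p : ℝ × ℝ => (p.2, y₀ + L * p.1))).enorm
  · exact meas_Ioo (F := fun p => ‖b (x₀ + p.1, p.2)‖ₑ) m2 (by fun_prop)
      (hb.comp (by fun_prop : Measurable fun p : ℝ × ℝ => (x₀ + p.1, p.2))).enorm

theorem T_TON : S_TON := by
  intro ϕ K hlip a b ha hb x₀
  refine ⟨measurable_EL hlip.continuous ha hb _ _ _, fun ρ₀ hρ₀ => ?_⟩
  have hK : (0 : ℝ) ≤ K := K.2
  set D := Om ϕ ∩ Bx x₀ (ϕ x₀) (K + 1) ρ₀ with hD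
  have hDm : MeasurableSet D := measurableSet_reg hlip.continuous _ _ _ _
  set Fb : ℝ × ℝ → ℝ≥0∞ := D.indicator (fun p => ‖b p‖ₑ) with hFb
  set Fa : ℝ × ℝ → ℝ≥0∞ := D.indicator (fun p => ‖a p‖ₑ) with hFa
  have mFb : Measurable Fb := hb.enorm.indicator hDm
  have mFa : Measurable Fa := ha.enorm.indicator hDm
  -- pointwise bounds
  have key : ∀ ρ ∈ Ioo 0 ρ₀, EL ϕ x₀ (ϕ x₀) (K + 1) a b ρ ≤
      (∫⁻ y, Fb (x₀ - ρ, y)) + (∫⁻ x, Fa (x, ϕ x₀ + ((K : ℝ) + 1) * ρ)) +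
        ∫⁻ y, Fb (x₀ + ρ, y) := by
    intro ρ hρ
    refine add_le_add (add_le_add ?_ ?_) ?_
    · rw [← lintegral_indicator measurableSet_Ioo]
      refine lintegral_mono fun y => ?_
      by_cases hy : y ∈ Ioo (ϕ (x₀ - ρ)) (ϕ x₀ + ((K : ℝ) + 1) * ρ)
      · rw [indicator_of_mem hy, hFb, indicator_of_mem (side_mem hlip hρ.1 hρ.2 (by
          rw [sub_sub_cancel_left, abs_neg, abs_of_pos hρ.1]) hy)]
      · rw [indicator_of_notMem hy]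
        exact zero_le
    · rw [← lintegral_indicator measurableSet_Ioo]
      refine lintegral_mono fun x => ?_
      by_cases hx : x ∈ Ioo (x₀ - ρ) (x₀ + ρ)
      · rw [indicator_of_mem hx, hFa, indicator_of_mem (top_mem hlip hρ.1 hρ.2 hx)]
      · rw [indicator_of_notMem hx]
        exact zero_le
    · rw [← lintegral_indicator measurableSet_Ioo]
      refine lintegral_mono fun y => ?_
      by_cases hy : y ∈ Ioo (ϕ (x₀ + ρ)) (ϕ x₀ + ((K : ℝ) + 1) * ρ)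
      · rw [indicator_of_mem hy, hFb, indicator_of_mem (side_mem hlip hρ.1 hρ.2 (by
          rw [add_sub_cancel_left, abs_of_pos hρ.1]) hy)]
      · rw [indicator_of_notMem hy]
        exact zero_le
  have gb : Measurable fun x : ℝ => ∫⁻ y, Fb (x, y) := mFb.lintegral_prod_right'
  have ga : Measurable fun y : ℝ => ∫⁻ x, Fa (x, y) := mFa.lintegral_prod_left'
  have ib : ∫⁻ x, ∫⁻ y, Fb (x, y) = ∫⁻ p in D, ‖b p‖ₑ := by
    rw [← lintegral_indicator hDm]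
    exact (lintegral_prod Fb mFb.aemeasurable).symm
  have ia : ∫⁻ y, ∫⁻ x, Fa (x, y) = ∫⁻ p in D, ‖a p‖ₑ := by
    rw [← lintegral_indicator hDm]
    exact (lintegral_prod_symm Fa mFa.aemeasurable).symm
  have i1 : ∫⁻ ρ, ∫⁻ y, Fb (x₀ - ρ, y) = ∫⁻ p in D, ‖b p‖ₑ := by
    rw [← ib]
    exact lintegral_sub_left_eq_self (fun x => ∫⁻ y, Fb (x, y)) x₀
  have i3 : ∫⁻ ρ, ∫⁻ y, Fb (x₀ + ρ, y) = ∫⁻ p in D, ‖b p‖ₑ := by
    rw [← ib]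
    exact lintegral_add_left_eq_self (fun x => ∫⁻ y, Fb (x, y)) x₀
  have i2 : ∫⁻ ρ, ∫⁻ x, Fa (x, ϕ x₀ + ((K : ℝ) + 1) * ρ) ≤ ∫⁻ p in D, ‖a p‖ₑ := by
    rw [← ia]
    set g : ℝ → ℝ≥0∞ := fun y => ∫⁻ x, Fa (x, y) with hg
    have hL : ((K : ℝ) + 1) ≠ 0 := by positivity
    have e1 : ∫⁻ ρ, g (ϕ x₀ + ((K : ℝ) + 1) * ρ) =
        ∫⁻ y, g (ϕ x₀ + y) ∂(Measure.map (fun ρ : ℝ => ((K : ℝ) + 1) * ρ) volume) := by
      have m3 : Measurable fun y : ℝ => g (ϕ x₀ + y) :=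
        ga.comp (by fun_prop : Measurable fun y : ℝ => ϕ x₀ + y)
      have m4 : Measurable fun ρ : ℝ => ((K : ℝ) + 1) * ρ := by fun_prop
      exact (lintegral_map m3 m4).symm
    have e2 : ∫⁻ y, g (ϕ x₀ + y) = ∫⁻ y, g y := lintegral_add_left_eq_self g (ϕ x₀)
    change ∫⁻ ρ, g (ϕ x₀ + ((K : ℝ) + 1) * ρ) ≤ _
    rw [e1, Real.map_volume_mul_left hL, lintegral_smul_measure, e2, smul_eq_mul]
    have : ENNReal.ofReal |((K : ℝ) + 1)⁻¹| ≤ 1 := by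
      rw [ENNReal.ofReal_le_one, abs_of_pos (by positivity)]
      exact inv_le_one_of_one_le₀ (by linarith)
    calc ENNReal.ofReal |((K : ℝ) + 1)⁻¹| * ∫⁻ y, g y ≤ 1 * ∫⁻ y, g y := by gcongr
      _ = _ := one_mul _
  calc ∫⁻ ρ in Ioo 0 ρ₀, EL ϕ x₀ (ϕ x₀) (K + 1) a b ρ
      ≤ ∫⁻ ρ in Ioo 0 ρ₀, ((∫⁻ y, Fb (x₀ - ρ, y)) +
          (∫⁻ x, Fa (x, ϕ x₀ + ((K : ℝ) + 1) * ρ)) + ∫⁻ y, Fb (x₀ + ρ, y)) :=
        setLIntegral_mono' measurableSet_Ioo key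
    _ ≤ ∫⁻ ρ, ((∫⁻ y, Fb (x₀ - ρ, y)) +
          (∫⁻ x, Fa (x, ϕ x₀ + ((K : ℝ) + 1) * ρ)) + ∫⁻ y, Fb (x₀ + ρ, y)) :=
        setLIntegral_le_lintegral _ _
    _ = (∫⁻ ρ, ∫⁻ y, Fb (x₀ - ρ, y)) + (∫⁻ ρ, ∫⁻ x, Fa (x, ϕ x₀ + ((K : ℝ) + 1) * ρ)) +
          ∫⁻ ρ, ∫⁻ y, Fb (x₀ + ρ, y) := by
        have mr : Measurable fun ρ : ℝ => ∫⁻ y, Fb (x₀ + ρ, y) :=
          gb.comp (by fun_prop : Measurable fun ρ : ℝ => x₀ + ρ)
        have ml : Measurable fun ρ : ℝ => ∫⁻ y, Fb (x₀ - ρ, y) :=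
          gb.comp (by fun_prop : Measurable fun ρ : ℝ => x₀ - ρ)
        rw [lintegral_add_right _ mr, lintegral_add_left ml]
    _ ≤ (∫⁻ p in D, ‖b p‖ₑ) + (∫⁻ p in D, ‖a p‖ₑ) + ∫⁻ p in D, ‖b p‖ₑ := by
        rw [i1, i3]
        gcongr
    _ ≤ 2 * ∫⁻ p in D, (‖a p‖ₑ + ‖b p‖ₑ) := by
        rw [lintegral_add_left ha.enorm, mul_add, two_mul, two_mul]
        set A := ∫⁻ p in D, ‖a p‖ₑ
        set B := ∫⁻ p in D, ‖b p‖ₑ
        calc B + A + B = 0 + A + (B + B) := by ring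
          _ ≤ A + A + (B + B) := by gcongr; exact zero_le

end Pool.Agent.W597.RB
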