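import Pool.Agent.W98.RB.Defs
import Pool.Agent.W597.RB.TON

/-!
# Courant - Lebesgue selection of a good radius (RB-CL)
-/

set_option autoImplicit false

open MeasureTheory Set Filter Topology
open scoped ENNReal NNReal

namespace Pool.Agent.W597.RB

open Pool.Agent.W98.RB

/-- Cauchy-Schwarz -/
theorem cs_sq {μ : Measure ℝ} {f : ℝ → ℝ≥0∞} (hf : Measurable f) :
    (∫⁻ x, f x ∂μ) ^ 2 ≤ μ univ * ∫⁻ x, f x ^ 2 ∂μ := by
  have h := ENNReal.lintegral_mul_le_Lp_mul_Lq μ Real.HolderConjugate.two_two hf.aemeasurable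
    (measurable_const (a := (1 : ℝ≥0∞))).aemeasurable
  simp only [Pi.mul_apply, mul_one, ENNReal.one_rpow, lintegral_const, one_mul] at h
  have e : ∀ x : ℝ≥0∞, x ^ (2 : ℝ) = x ^ 2 := fun x => by
    rw [show (2 : ℝ) = ((2 : ℕ) : ℝ) by norm_num, ENNReal.rpow_natCast]
  have e2 : ∀ x : ℝ≥0∞, (x ^ (1 / 2 : ℝ)) ^ 2 = x := fun x => by
    rw [← e, ← ENNReal.rpow_mul]
    norm_num
  simp only [e] at h
  calc (∫⁻ x, f x ∂μ) ^ 2 ≤ ((∫⁻ x, f x ^ 2 ∂μ) ^ (1 / 2 : ℝ) * μ univ ^ (1 / 2 : ℝ)) ^ 2 := by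
        gcongr
    _ = μ univ * ∫⁻ x, f x ^ 2 ∂μ := by
        rw [mul_pow, e2, e2, mul_comm]

theorem three_sq (r s t : ℝ≥0∞) : (r + s + t) ^ 2 ≤ 3 * (r ^ 2 + s ^ 2 + t ^ 2) := by
  have h : ∀ x y : ℝ≥0∞, 2 * (x * y) ≤ x ^ 2 + y ^ 2 := by
    intro x y
    rcases le_total x y with hxy | hxy
    · obtain ⟨z, rfl⟩ := exists_add_of_le hxy
      calc 2 * (x * (x + z)) = x ^ 2 + (x ^ 2 + 2 * (x * z)) := by ring
        _ ≤ x ^ 2 + (x ^ 2 + 2 * (x * z)) + z ^ 2 := le_self_add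
        _ = _ := by ring
    · obtain ⟨z, rfl⟩ := exists_add_of_le hxy
      calc 2 * ((y + z) * y) = (y ^ 2 + 2 * (y * z)) + y ^ 2 := by ring
        _ ≤ (y ^ 2 + 2 * (y * z)) + y ^ 2 + z ^ 2 := le_self_add
        _ = _ := by ring
  calc (r + s + t) ^ 2 = r ^ 2 + s ^ 2 + t ^ 2 + (2 * (r * s) + 2 * (r * t) + 2 * (s * t)) := by
        ring
    _ ≤ r ^ 2 + s ^ 2 + t ^ 2 + ((r ^ 2 + s ^ 2) + (r ^ 2 + t ^ 2) + (s ^ 2 + t ^ 2)) := by
        gcongr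
        · exact h _ _
        · exact h _ _
        · exact h _ _
    _ = _ := by ring

theorem not_int_inv {ρ₀ : ℝ} (h : 0 < ρ₀) : ∫⁻ ρ in Ioo 0 ρ₀, ENNReal.ofReal (ρ⁻¹) = ⊤ := by
  by_contra hne
  have h1 : Integrable (fun ρ : ℝ => ρ⁻¹) (volume.restrict (Ioo 0 ρ₀)) := by
    refine (lintegral_ofReal_ne_top_iff_integrable ?_ ?_).1 hne
    · exact measurable_inv.aestronglyMeasurable
    · exact (ae_restrict_iff' measurableSet_Ioo).2
        (Filter.Eventually.of_forall fun x hx => inv_nonneg.2 hx.1.le)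
  have h2 : IntervalIntegrable (fun ρ : ℝ => ρ⁻¹) volume 0 ρ₀ := by
    rw [intervalIntegrable_iff_integrableOn_Ioo_of_le h.le]
    exact h1
  rw [intervalIntegrable_inv_iff] at h2
  rcases h2 with h2 | h2
  · exact h.ne h2
  · exact h2 left_mem_uIcc

theorem T_CL (hT : S_TON) : S_CL := by
  intro ϕ K hlip a b ha hb x₀ ρ₀ hρ₀ hfin ε hε hnull
  have hK : (0 : ℝ) ≤ K := K.2
  set L : ℝ := (K : ℝ) + 1 with hL
  have hL1 : 1 ≤ L := by linarith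
  set Q := EL ϕ x₀ (ϕ x₀) L (fun p => a p ^ 2) (fun p => b p ^ 2) with hQ
  obtain ⟨mQ, hTon⟩ := hT ϕ K hlip (fun p => a p ^ 2) (fun p => b p ^ 2)
    (ha.pow_const 2) (hb.pow_const 2) x₀
  have hTon := hTon ρ₀ hρ₀
  have hen : ∀ x : ℝ, ‖x ^ 2‖ₑ = ‖x‖ₑ ^ 2 := fun x => by rw [enorm_pow]
  simp only [hen] at hTon
  have hQfin : ∫⁻ ρ in Ioo 0 ρ₀, Q ρ ≠ ⊤ :=
    ne_top_of_le_ne_top (ENNReal.mul_ne_top (by norm_num) hfin) hTon
  -- Cauchy-Schwarz on the three sides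
  have key : ∀ ρ ∈ Ioo 0 ρ₀, EL ϕ x₀ (ϕ x₀) L a b ρ ^ 2 ≤ ENNReal.ofReal (6 * L * ρ) * Q ρ := by
    intro ρ hρ
    have hlen : ∀ x, |x - x₀| = ρ → volume (Ioo (ϕ x) (ϕ x₀ + L * ρ)) ≤
        ENNReal.ofReal (2 * L * ρ) := by
      intro x hx
      rw [Real.volume_Ioo]
      refine ENNReal.ofReal_le_ofReal ?_
      have hl := hlip.dist_le_mul x x₀
      rw [Real.dist_eq, Real.dist_eq, hx] at hl
      have hl' := abs_le.1 hl
      have : (K : ℝ) * ρ ≤ L * ρ := by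
        have := hρ.1
        gcongr
        linarith
      nlinarith [hl'.1]
    have c1 : (∫⁻ y in Ioo (ϕ (x₀ - ρ)) (ϕ x₀ + L * ρ), ‖b (x₀ - ρ, y)‖ₑ) ^ 2 ≤
        ENNReal.ofReal (2 * L * ρ) *
          ∫⁻ y in Ioo (ϕ (x₀ - ρ)) (ϕ x₀ + L * ρ), ‖b (x₀ - ρ, y)‖ₑ ^ 2 := by
      refine (cs_sq (hb.comp (by fun_prop : Measurable fun y : ℝ => (x₀ - ρ, y))).enorm).trans ?_
      rw [Measure.restrict_apply_univ]
      gcongr
      · exact hlen _ (by rw [sub_sub_cancel_left, abs_neg, abs_of_pos hρ.1])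
      · exact le_rfl
    have c3 : (∫⁻ y in Ioo (ϕ (x₀ + ρ)) (ϕ x₀ + L * ρ), ‖b (x₀ + ρ, y)‖ₑ) ^ 2 ≤
        ENNReal.ofReal (2 * L * ρ) *
          ∫⁻ y in Ioo (ϕ (x₀ + ρ)) (ϕ x₀ + L * ρ), ‖b (x₀ + ρ, y)‖ₑ ^ 2 := by
      refine (cs_sq (hb.comp (by fun_prop : Measurable fun y : ℝ => (x₀ + ρ, y))).enorm).trans ?_
      rw [Measure.restrict_apply_univ]
      gcongr
      · exact hlen _ (by rw [add_sub_cancel_left, abs_of_pos hρ.1])
      · exact le_rfl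
    have c2 : (∫⁻ x in Ioo (x₀ - ρ) (x₀ + ρ), ‖a (x, ϕ x₀ + L * ρ)‖ₑ) ^ 2 ≤
        ENNReal.ofReal (2 * L * ρ) *
          ∫⁻ x in Ioo (x₀ - ρ) (x₀ + ρ), ‖a (x, ϕ x₀ + L * ρ)‖ₑ ^ 2 := by
      refine (cs_sq (ha.comp (by fun_prop : Measurable fun x : ℝ =>
        (x, ϕ x₀ + L * ρ))).enorm).trans ?_
      rw [Measure.restrict_apply_univ, Real.volume_Ioo]
      gcongr
      · have := hρ.1
        nlinarith
      · exact le_rfl
    have e6 : ENNReal.ofReal (6 * L * ρ) = 3 * ENNReal.ofReal (2 * L * ρ) := by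
      rw [← ENNReal.ofReal_ofNat 3, ← ENNReal.ofReal_mul (by norm_num)]
      congr 1
      ring
    rw [e6]
    unfold EL
    refine (three_sq _ _ _).trans ?_
    rw [mul_assoc]
    refine mul_le_mul_right ?_ 3
    refine (add_le_add (add_le_add c1 c2) c3).trans ?_
    rw [← mul_add, ← mul_add, hQ]
    unfold EL
    simp only [hen]
    exact le_rfl
  -- the bound from below
  set ε' : ℝ≥0∞ := min ε 1 with hε'
  have hε'0 : 0 < ε' := lt_min hε one_pos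
  have hε't : ε' ≠ ⊤ := ne_top_of_le_ne_top ENNReal.one_ne_top (min_le_right _ _)
  have hae : ∀ᵐ ρ ∂(volume.restrict (Ioo 0 ρ₀)),
      ε' ^ 2 / ENNReal.ofReal (6 * L) * ENNReal.ofReal ρ⁻¹ ≤ Q ρ := by
    rw [ae_restrict_iff' measurableSet_Ioo]
    have h1 := measure_eq_zero_iff_ae_notMem.1 hnull
    filter_upwards [h1] with ρ hρ hρI
    have h2 : ε ≤ EL ϕ x₀ (ϕ x₀) L a b ρ := by
      by_contra h
      exact hρ ⟨hρI, not_le.1 h⟩
    have h3 : ε' ^ 2 ≤ ENNReal.ofReal (6 * L * ρ) * Q ρ := by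
      refine le_trans ?_ (key ρ hρI)
      gcongr
      exact (min_le_left _ _).trans h2
    have h6 : ENNReal.ofReal (6 * L) ≠ 0 := by
      rw [Ne, ENNReal.ofReal_eq_zero, not_le]
      positivity
    have hρ0 : ENNReal.ofReal ρ ≠ 0 := by
      rw [Ne, ENNReal.ofReal_eq_zero, not_le]
      exact hρI.1
    rw [ENNReal.ofReal_inv_of_pos hρI.1, ← div_eq_mul_inv,
      ENNReal.div_le_iff hρ0 ENNReal.ofReal_ne_top,
      ENNReal.div_le_iff h6 ENNReal.ofReal_ne_top]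
    refine h3.trans (le_of_eq ?_)
    rw [ENNReal.ofReal_mul (by positivity)]
    ring
  have hint := lintegral_mono_ae hae
  rw [lintegral_const_mul _ (by fun_prop), not_int_inv hρ₀, ENNReal.mul_top] at hint
  · exact hQfin (top_le_iff.1 hint)
  · exact (ENNReal.div_pos (pow_ne_zero 2 hε'0.ne') ENNReal.ofReal_ne_top).ne'

end Pool.Agent.W597.RB
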