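import Pool.Agent.W98.RB.Defs

/-!
# Oscillation on the boundary of the box (RB-PATH)
-/

set_option autoImplicit false

open MeasureTheory Set Filter Topology
open scoped ENNReal NNReal

namespace Pool.Agent.W597.RB

open Pool.Agent.W98.RB

theorem hasDerivAt_y {v : ℝ × ℝ → ℝ} (hv : ContDiff ℝ 1 v) (x t : ℝ) :
    HasDerivAt (fun t => v (x, t)) (dy v (x, t)) t := by
  have h1 : HasFDerivAt v (fderiv ℝ v (x, t)) (x, t) :=
    (hv.differentiable one_ne_zero (x, t)).hasFDerivAt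
  have h2 : HasDerivAt (fun t : ℝ => (x, t)) ((0 : ℝ), (1 : ℝ)) t :=
    (hasDerivAt_const t x).prodMk (hasDerivAt_id t)
  exact h1.comp_hasDerivAt t h2

theorem hasDerivAt_x {v : ℝ × ℝ → ℝ} (hv : ContDiff ℝ 1 v) (x t : ℝ) :
    HasDerivAt (fun x => v (x, t)) (dx v (x, t)) x := by
  have h1 : HasFDerivAt v (fderiv ℝ v (x, t)) (x, t) :=
    (hv.differentiable one_ne_zero (x, t)).hasFDerivAt
  have h2 : HasDerivAt (fun x : ℝ => (x, t)) ((1 : ℝ), (0 : ℝ)) x :=
    (hasDerivAt_id x).prodMk (hasDerivAt_const x t)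
  exact h1.comp_hasDerivAt x h2

theorem continuous_dy {v : ℝ × ℝ → ℝ} (hv : ContDiff ℝ 1 v) : Continuous (dy v) :=
  (hv.continuous_fderiv one_ne_zero).clm_apply continuous_const

theorem continuous_dx {v : ℝ × ℝ → ℝ} (hv : ContDiff ℝ 1 v) : Continuous (dx v) :=
  (hv.continuous_fderiv one_ne_zero).clm_apply continuous_const

/-- one dimensional oscillation -/
theorem osc {f f' : ℝ → ℝ} (h : ∀ t, HasDerivAt f (f' t) t) (hc : Continuous f') {a b : ℝ}
    (hab : a ≤ b) : ENNReal.ofReal |f b - f a| ≤ ∫⁻ t in Ioo a b, ‖f' t‖ₑ := by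
  have h1 : ∫ t in a..b, f' t = f b - f a :=
    intervalIntegral.integral_eq_sub_of_hasDerivAt (fun t _ => h t) (hc.intervalIntegrable a b)
  have h2 : ∫ t in Ioc a b, f' t = ∫ t in Ioo a b, f' t :=
    setIntegral_congr_set (Ioo_ae_eq_Ioc (μ := volume) (a := a) (b := b)).symm
  rw [← h1, intervalIntegral.integral_of_le hab, ← Real.norm_eq_abs, ofReal_norm, h2]
  exact enorm_integral_le_lintegral_enorm _

theorem osc_sub {f f' : ℝ → ℝ} (h : ∀ t, HasDerivAt f (f' t) t) (hc : Continuous f') {a b c d : ℝ}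
    (hca : c ≤ a) (hab : a ≤ b) (hbd : b ≤ d) :
    ENNReal.ofReal |f b - f a| ≤ ∫⁻ t in Ioo c d, ‖f' t‖ₑ :=
  (osc h hc hab).trans (lintegral_mono_set (Ioo_subset_Ioo hca hbd))

theorem T_PATH : S_PATH := by
  intro ϕ K hlip v hv x₀ ρ hρ p hp x hx
  have hK : (0 : ℝ) ≤ K := K.2
  obtain ⟨hpf, hpO⟩ := hp
  have hpO : ϕ p.1 ≤ p.2 := hpO
  have hopen : IsOpen (Bx x₀ (ϕ x₀) (K + 1) ρ) := by
    have c1 : Continuous fun p : ℝ × ℝ => |p.1 - x₀| := by fun_prop
    have c2 : Continuous fun p : ℝ × ℝ => |p.2 - ϕ x₀| := by fun_prop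
    exact (isOpen_lt c1 continuous_const).inter (isOpen_lt c2 continuous_const)
  have hclosed : IsClosed {p : ℝ × ℝ | |p.1 - x₀| ≤ ρ ∧ |p.2 - ϕ x₀| ≤ ((K : ℝ) + 1) * ρ} := by
    have c1 : Continuous fun p : ℝ × ℝ => |p.1 - x₀| := by fun_prop
    have c2 : Continuous fun p : ℝ × ℝ => |p.2 - ϕ x₀| := by fun_prop
    exact (isClosed_le c1 continuous_const).inter (isClosed_le c2 continuous_const)
  have hsub : Bx x₀ (ϕ x₀) (K + 1) ρ ⊆
      {p : ℝ × ℝ | |p.1 - x₀| ≤ ρ ∧ |p.2 - ϕ x₀| ≤ ((K : ℝ) + 1) * ρ} :=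
    fun q hq => ⟨le_of_lt hq.1, le_of_lt hq.2⟩
  have hcl : p ∈ {p : ℝ × ℝ | |p.1 - x₀| ≤ ρ ∧ |p.2 - ϕ x₀| ≤ ((K : ℝ) + 1) * ρ} :=
    closure_minimal hsub hclosed (frontier_subset_closure hpf)
  have hnot : p ∉ Bx x₀ (ϕ x₀) (K + 1) ρ := by
    rw [hopen.frontier_eq] at hpf
    exact hpf.2
  obtain ⟨h1, h2⟩ := hcl
  have h1' := abs_le.1 h1
  have h2' := abs_le.1 h2
  have hl := hlip.dist_le_mul p.1 x₀
  rw [Real.dist_eq, Real.dist_eq] at hl
  have hl' := abs_le.1 hl
  have e3 : (K : ℝ) * |p.1 - x₀| ≤ K * ρ := by gcongr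
  set top : ℝ := ϕ x₀ + ((K : ℝ) + 1) * ρ with htop
  have htp : p.2 ≤ top := by linarith [h2'.2]
  have hlow : ϕ x₀ - ((K : ℝ) + 1) * ρ < p.2 := by nlinarith [hl'.1]
  have cx := continuous_dx hv
  have cy := continuous_dy hv
  -- horizontal part
  have hor : ENNReal.ofReal |v (p.1, top) - v (x, top)| ≤
      ∫⁻ t in Ioo (x₀ - ρ) (x₀ + ρ), ‖dx v (t, top)‖ₑ := by
    have hd : ∀ t, HasDerivAt (fun t => v (t, top)) (dx v (t, top)) t := fun t =>
      hasDerivAt_x hv t top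
    have hcc : Continuous fun t : ℝ => dx v (t, top) := cx.comp (by fun_prop)
    rcases le_total p.1 x with h | h
    · rw [abs_sub_comm]
      exact osc_sub hd hcc (by linarith [h1'.1]) h hx.2
    · exact osc_sub hd hcc hx.1 h (by linarith [h1'.2])
  have hsplit : ENNReal.ofReal |v p - v (x, top)| ≤
      ENNReal.ofReal |v (p.1, top) - v (p.1, p.2)| +
        ENNReal.ofReal |v (p.1, top) - v (x, top)| := by
    rw [← ENNReal.ofReal_add (abs_nonneg _) (abs_nonneg _)]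
    refine ENNReal.ofReal_le_ofReal ?_
    have e : v p - v (x, top) = -(v (p.1, top) - v (p.1, p.2)) +
        (v (p.1, top) - v (x, top)) := by
      change v p - v (x, top) = -(v (p.1, top) - v p) + _
      ring
    rw [e]
    refine (abs_add_le _ _).trans ?_
    rw [abs_neg]
  have hver : ENNReal.ofReal |v (p.1, top) - v (p.1, p.2)| ≤
      ∫⁻ t in Ioo (ϕ p.1) top, ‖dy v (p.1, t)‖ₑ :=
    osc_sub (f := fun t => v (p.1, t)) (fun t => hasDerivAt_y hv p.1 t)
      (cy.comp (by fun_prop)) hpO htp le_rfl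
  unfold EL
  rcases htp.eq_or_lt with ht | ht
  · -- on the top side
    have : ENNReal.ofReal |v (p.1, top) - v (p.1, p.2)| = 0 := by
      rw [ht]
      simp
    rw [this, zero_add] at hsplit
    refine (hsplit.trans hor).trans ?_
    exact le_trans le_add_self le_self_add
  · -- on a vertical side
    have hx1 : |p.1 - x₀| = ρ := by
      refine le_antisymm h1 (not_lt.1 fun h => hnot ⟨h, ?_⟩)
      rw [abs_lt]
      constructor
      · linarith
      · linarith
    rcases abs_eq hρ.le |>.1 hx1 with h | h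
    · have e : p.1 = x₀ + ρ := by linarith
      refine (hsplit.trans (add_le_add hver hor)).trans ?_
      rw [e, add_comm, add_assoc]
      exact le_add_self
    · have e : p.1 = x₀ - ρ := by linarith
      refine (hsplit.trans (add_le_add hver hor)).trans ?_
      rw [e]
      exact le_self_add

end Pool.Agent.W597.RB
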