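import Pool.Agent.W98.RB.Defs
import Pool.Agent.W597.RB.PATH

/-!
# The trace of a function continuous up to the boundary (RB-TR)
-/

set_option autoImplicit false

open MeasureTheory Set Filter Topology
open scoped ENNReal NNReal

namespace Pool.Agent.W597.RB

open Pool.Agent.W98.RB

/-- the one dimensional statement -/
theorem one_dim (f f' : ℕ → ℝ → ℝ) (w g : ℝ → ℝ) (c : ℝ)
    (hf : ∀ k t, HasDerivAt (f k) (f' k t) t) (hf' : ∀ k, Continuous (f' k))
    (hw : Measurable w) (hg : Measurable g)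
    (h : Tendsto (fun k => ‖f k 0 - c‖ₑ + (∫⁻ t in Ioo (0 : ℝ) 1, ‖f k t - w t‖ₑ) +
      ∫⁻ t in Ioo (0 : ℝ) 1, ‖f' k t - g t‖ₑ) atTop (𝓝 0)) :
    IntervalIntegrable g volume 0 1 ∧
      ∀ᵐ t ∂(volume.restrict (Ioo (0 : ℝ) 1)), w t = c + ∫ s in (0 : ℝ)..t, g s := by
  have hint : IntervalIntegrable g volume 0 1 := by
    rw [intervalIntegrable_iff_integrableOn_Ioo_of_le zero_le_one]
    obtain ⟨k, hk⟩ := (h.eventually (gt_mem_nhds (zero_lt_one (α := ℝ≥0∞)))).exists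
    have h1 : ∫⁻ t in Ioo (0 : ℝ) 1, ‖f' k t - g t‖ₑ < ⊤ :=
      lt_of_le_of_lt le_add_self (hk.trans ENNReal.one_lt_top)
    have h2 : Integrable (fun t => f' k t - g t) (volume.restrict (Ioo (0 : ℝ) 1)) :=
      ⟨((hf' k).measurable.sub hg).aestronglyMeasurable, h1⟩
    have h3 : Integrable (f' k) (volume.restrict (Ioo (0 : ℝ) 1)) :=
      ((hf' k).continuousOn.integrableOn_Icc (a := 0) (b := 1)).mono_set Ioo_subset_Icc_self
    have h4 := h3.sub h2
    refine h4.congr (Filter.Eventually.of_forall fun t => ?_)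
    change f' k t - (f' k t - g t) = g t
    ring
  refine ⟨hint, ?_⟩
  have hsub : ∀ t ∈ Ioo (0 : ℝ) 1, IntervalIntegrable g volume 0 t := fun t ht =>
    hint.mono_set (by
      rw [uIcc_of_le ht.1.le, uIcc_of_le zero_le_one]
      exact Icc_subset_Icc le_rfl ht.2.le)
  have hmeas : AEMeasurable (fun t => ∫ s in (0 : ℝ)..t, g s) (volume.restrict (Ioo (0 : ℝ) 1)) := by
    have hc : ContinuousOn (fun t => ∫ s in (0 : ℝ)..t, g s) (Icc 0 1) := by
      have := intervalIntegral.continuousOn_primitive_interval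
        (f := g) (μ := volume) (a := 0) (b := 1)
        ((intervalIntegrable_iff_integrableOn_Icc_of_le zero_le_one).1 hint |>.mono_set (by
          rw [uIcc_of_le zero_le_one]))
      rwa [uIcc_of_le zero_le_one] at this
    exact (hc.mono Ioo_subset_Icc_self).aemeasurable measurableSet_Ioo
  have hbound : ∀ k, ∫⁻ t in Ioo (0 : ℝ) 1, ‖w t - (c + ∫ s in (0 : ℝ)..t, g s)‖ₑ ≤
      ‖f k 0 - c‖ₑ + (∫⁻ t in Ioo (0 : ℝ) 1, ‖f k t - w t‖ₑ) +
      ∫⁻ t in Ioo (0 : ℝ) 1, ‖f' k t - g t‖ₑ := by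
    intro k
    set J := ∫⁻ t in Ioo (0 : ℝ) 1, ‖f' k t - g t‖ₑ with hJ
    have hfk : Continuous (f k) := continuous_iff_continuousAt.2 fun t => (hf k t).continuousAt
    have hpt : ∀ t ∈ Ioo (0 : ℝ) 1, ‖w t - (c + ∫ s in (0 : ℝ)..t, g s)‖ₑ ≤
        (‖f k 0 - c‖ₑ + J) + ‖f k t - w t‖ₑ := by
      intro t ht
      have e1 : ∫ s in (0 : ℝ)..t, f' k s = f k t - f k 0 :=
        intervalIntegral.integral_eq_sub_of_hasDerivAt (fun s _ => hf k s)
          ((hf' k).intervalIntegrable 0 t)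
      have e2 : ∫ s in (0 : ℝ)..t, (f' k s - g s) = (f k t - f k 0) - ∫ s in (0 : ℝ)..t, g s := by
        rw [intervalIntegral.integral_sub ((hf' k).intervalIntegrable 0 t) (hsub t ht), e1]
      have e3 : ‖∫ s in (0 : ℝ)..t, (f' k s - g s)‖ₑ ≤ J := by
        rw [intervalIntegral.integral_of_le ht.1.le]
        refine (enorm_integral_le_lintegral_enorm _).trans (lintegral_mono_set ?_)
        exact fun s hs => ⟨hs.1, hs.2.trans_lt ht.2⟩
      have e4 : w t - (c + ∫ s in (0 : ℝ)..t, g s) =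
          ((f k 0 - c) + ∫ s in (0 : ℝ)..t, (f' k s - g s)) - (f k t - w t) := by
        rw [e2]
        ring
      rw [e4]
      refine enorm_sub_le.trans (add_le_add ((enorm_add_le _ _).trans ?_) le_rfl)
      gcongr
    refine (setLIntegral_mono' measurableSet_Ioo hpt).trans ?_
    rw [lintegral_add_left measurable_const, setLIntegral_const, Real.volume_Ioo]
    norm_num
    rw [add_right_comm]
  have hzero : ∫⁻ t in Ioo (0 : ℝ) 1, ‖w t - (c + ∫ s in (0 : ℝ)..t, g s)‖ₑ = 0 :=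
    le_antisymm (ge_of_tendsto' h hbound) zero_le
  have hmm : AEMeasurable (fun t => ‖w t - (c + ∫ s in (0 : ℝ)..t, g s)‖ₑ)
      (volume.restrict (Ioo (0 : ℝ) 1)) :=
    (hw.aemeasurable.sub ((aemeasurable_const (b := c)).add hmeas)).enorm
  rw [lintegral_eq_zero_iff' hmm] at hzero
  filter_upwards [hzero] with t ht
  have : w t - (c + ∫ s in (0 : ℝ)..t, g s) = 0 := by simpa using ht
  linarith

/-- subsequence which converges almost everywhere -/
theorem subseq {μ : Measure ℝ} (G : ℕ → ℝ → ℝ≥0∞) (hG : ∀ k, Measurable (G k))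
    (h : Tendsto (fun k => ∫⁻ x, G k x ∂μ) atTop (𝓝 0)) :
    ∃ s : ℕ → ℕ, StrictMono s ∧ ∀ᵐ x ∂μ, Tendsto (fun k => G (s k) x) atTop (𝓝 0) := by
  have h1 : ∀ n : ℕ, ∃ N, ∀ k ≥ N, ∫⁻ x, G k x ∂μ ≤ (1 / 2 : ℝ≥0∞) ^ n := by
    intro n
    have : (0 : ℝ≥0∞) < (1 / 2) ^ n := ENNReal.pow_pos (by simp) n
    have h2 := h.eventually (ge_mem_nhds this)
    exact eventually_atTop.1 h2
  obtain ⟨s, hs, hs2⟩ := extraction_forall_of_eventually' h1
  refine ⟨s, hs, ?_⟩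
  have h3 : ∫⁻ x, ∑' k, G (s k) x ∂μ ≠ ⊤ := by
    rw [lintegral_tsum fun k => (hG (s k)).aemeasurable]
    refine ne_top_of_le_ne_top ?_ (ENNReal.tsum_le_tsum hs2)
    rw [ENNReal.tsum_geometric]
    norm_num
  filter_upwards [ae_lt_top (Measurable.tsum fun k => hG (s k)) h3] with x hx
  exact ENNReal.tendsto_atTop_zero_of_tsum_ne_top hx.ne

/-- `L²` convergence implies `L¹` convergence on a set of finite measure -/
theorem l2_l1 {α : Type*} [MeasurableSpace α] {μ : Measure α} [IsFiniteMeasure μ]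
    {F : ℕ → α → ℝ} (hF : ∀ k, Measurable (F k))
    (h : Tendsto (fun k => eLpNorm (F k) 2 μ) atTop (𝓝 0)) :
    Tendsto (fun k => ∫⁻ x, ‖F k x‖ₑ ∂μ) atTop (𝓝 0) := by
  have h1 : ∀ k, ∫⁻ x, ‖F k x‖ₑ ∂μ ≤ eLpNorm (F k) 2 μ *
      μ univ ^ (1 / (1 : ℝ≥0∞).toReal - 1 / (2 : ℝ≥0∞).toReal) := by
    intro k
    rw [← eLpNorm_one_eq_lintegral_enorm]
    exact eLpNorm_le_eLpNorm_mul_rpow_measure_univ (by norm_num) (hF k).aestronglyMeasurable
  have h2 : Tendsto (fun k => eLpNorm (F k) 2 μ *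
      μ univ ^ (1 / (1 : ℝ≥0∞).toReal - 1 / (2 : ℝ≥0∞).toReal)) atTop (𝓝 0) := by
    have := ENNReal.Tendsto.mul_const
      (b := μ univ ^ (1 / (1 : ℝ≥0∞).toReal - 1 / (2 : ℝ≥0∞).toReal)) h
      (Or.inr (ENNReal.rpow_ne_top_of_nonneg (by norm_num) (measure_ne_top _ _)))
    rwa [zero_mul] at this
  exact tendsto_of_tendsto_of_tendsto_of_le_of_le tendsto_const_nhds h2 (fun _ => zero_le) h1

/-- Fubini on a strip above the graph -/
theorem strip_le {ϕ : ℝ → ℝ} (hϕ : Continuous ϕ) {R R' : ℝ}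
    (hR : ∀ x ∈ Metric.ball (0 : ℝ) R, ∀ t ∈ Ioo (0 : ℝ) 1, (x, ϕ x + t) ∈ Metric.ball 0 R')
    {F : ℝ × ℝ → ℝ≥0∞} (hF : Measurable F) :
    ∫⁻ x in Metric.ball (0 : ℝ) R, ∫⁻ t in Ioo (0 : ℝ) 1, F (x, ϕ x + t) ≤
      ∫⁻ p in Om ϕ ∩ Metric.ball 0 R', F p := by
  have hD : MeasurableSet (Om ϕ ∩ Metric.ball (0 : ℝ × ℝ) R') :=
    (isOpen_lt (hϕ.comp continuous_fst) continuous_snd).measurableSet.inter
      Metric.isOpen_ball.measurableSet
  set D := Om ϕ ∩ Metric.ball (0 : ℝ × ℝ) R' with hDdef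
  have h1 : ∀ x ∈ Metric.ball (0 : ℝ) R, ∫⁻ t in Ioo (0 : ℝ) 1, F (x, ϕ x + t) ≤
      ∫⁻ y, D.indicator F (x, y) := by
    intro x hx
    rw [← lintegral_indicator measurableSet_Ioo,
      ← lintegral_add_left_eq_self (fun y => D.indicator F (x, y)) (ϕ x)]
    refine lintegral_mono fun t => ?_
    by_cases ht : t ∈ Ioo (0 : ℝ) 1
    · have hm : (x, ϕ x + t) ∈ D := ⟨by
        change ϕ x < ϕ x + t
        linarith [ht.1], hR x hx t ht⟩
      rw [indicator_of_mem ht, indicator_of_mem hm]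
    · rw [indicator_of_notMem ht]
      exact zero_le
  calc ∫⁻ x in Metric.ball (0 : ℝ) R, ∫⁻ t in Ioo (0 : ℝ) 1, F (x, ϕ x + t)
      ≤ ∫⁻ x in Metric.ball (0 : ℝ) R, ∫⁻ y, D.indicator F (x, y) :=
        setLIntegral_mono' Metric.isOpen_ball.measurableSet h1
    _ ≤ ∫⁻ x, ∫⁻ y, D.indicator F (x, y) := setLIntegral_le_lintegral _ _
    _ = ∫⁻ p in D, F p := by
        rw [← lintegral_indicator hD]
        exact (lintegral_prod _ (hF.indicator hD).aemeasurable).symm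

theorem T_TR : S_TR := by
  intro ϕ hϕ u Gx Gy T v hAp U hU hUu
  -- it is enough to work on bounded intervals
  suffices hmain : ∀ n : ℕ, ∀ᵐ x ∂(volume.restrict (Metric.ball (0 : ℝ) n)), T x = U (x, ϕ x) by
    have h1 : ∀ᵐ x ∂(volume.restrict (⋃ n : ℕ, Metric.ball (0 : ℝ) n)), T x = U (x, ϕ x) := by
      rw [ae_restrict_iUnion_iff]
      exact hmain
    have h2 : (⋃ n : ℕ, Metric.ball (0 : ℝ) n) = univ := by
      refine eq_univ_of_forall fun x => ?_
      obtain ⟨n, hn⟩ := exists_nat_gt |x|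
      exact mem_iUnion.2 ⟨n, by simpa using hn⟩
    rwa [h2, Measure.restrict_univ] at h1
  intro n
  obtain ⟨M, hM⟩ : ∃ M : ℝ, ∀ x ∈ Icc (-(n : ℝ)) n, |ϕ x| ≤ M := by
    obtain ⟨M, hM⟩ := isCompact_Icc.exists_bound_of_continuousOn (hϕ.continuousOn (s := Icc (-(n : ℝ)) n))
    exact ⟨M, fun x hx => by simpa using hM x hx⟩
  set R' : ℝ := n + |M| + 1 with hR'
  have hstrip : ∀ x ∈ Metric.ball (0 : ℝ) n, ∀ t ∈ Ioo (0 : ℝ) 1,
      (x, ϕ x + t) ∈ Metric.ball (0 : ℝ × ℝ) R' := by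
    intro x hx t ht
    have hx' : |x| < n := by simpa using hx
    have h1 := hM x ⟨by linarith [(abs_lt.1 hx').1], by linarith [(abs_lt.1 hx').2]⟩
    have h2 : |ϕ x| ≤ |M| := h1.trans (le_abs_self M)
    have h3 : |ϕ x + t| < |M| + 1 := by
      refine (abs_add_le _ _).trans_lt ?_
      have : |t| < 1 := by rw [abs_of_pos ht.1]; exact ht.2
      linarith
    rw [mem_ball_zero_iff, Prod.norm_def]
    refine max_lt ?_ ?_
    · change |x| < R'
      have := abs_nonneg M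
      linarith
    · change |ϕ x + t| < R'
      have : (0 : ℝ) ≤ n := Nat.cast_nonneg n
      linarith
  have mϕ : Measurable fun p : ℝ × ℝ => (p.1, ϕ p.1 + p.2) :=
    (by fun_prop : Continuous fun p : ℝ × ℝ => (p.1, ϕ p.1 + p.2)).measurable
  -- the function whose integral tends to zero
  set Gk : ℕ → ℝ → ℝ≥0∞ := fun k x => ‖v k (x, ϕ x) - T x‖ₑ +
    (∫⁻ t in Ioo (0 : ℝ) 1, ‖v k (x, ϕ x + t) - u (x, ϕ x + t)‖ₑ) +
    ∫⁻ t in Ioo (0 : ℝ) 1, ‖dy (v k) (x, ϕ x + t) - Gy (x, ϕ x + t)‖ₑ with hGk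
  have mv : ∀ k, Measurable (v k) := fun k => (hAp.c1 k).continuous.measurable
  have mdy : ∀ k, Measurable (dy (v k)) := fun k => (continuous_dy (hAp.c1 k)).measurable
  have mtr : ∀ k, Measurable fun x => v k (x, ϕ x) - T x := fun k =>
    ((mv k).comp (by fun_prop : Continuous fun x : ℝ => (x, ϕ x)).measurable).sub hAp.mT
  have mF1 : ∀ k, Measurable fun p : ℝ × ℝ => ‖v k p - u p‖ₑ := fun k =>
    ((mv k).sub hAp.mu).enorm
  have mF2 : ∀ k, Measurable fun p : ℝ × ℝ => ‖dy (v k) p - Gy p‖ₑ := fun k =>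
    ((mdy k).sub hAp.my).enorm
  have mI1 : ∀ k, Measurable fun x : ℝ =>
      ∫⁻ t in Ioo (0 : ℝ) 1, ‖v k (x, ϕ x + t) - u (x, ϕ x + t)‖ₑ := fun k =>
    ((mF1 k).comp mϕ).lintegral_prod_right' (ν := volume.restrict (Ioo (0 : ℝ) 1))
  have mI2 : ∀ k, Measurable fun x : ℝ =>
      ∫⁻ t in Ioo (0 : ℝ) 1, ‖dy (v k) (x, ϕ x + t) - Gy (x, ϕ x + t)‖ₑ := fun k =>
    ((mF2 k).comp mϕ).lintegral_prod_right' (ν := volume.restrict (Ioo (0 : ℝ) 1))
  have mG : ∀ k, Measurable (Gk k) := fun k => ((mtr k).enorm.add (mI1 k)).add (mI2 k)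
  have hfinD : IsFiniteMeasure (volume.restrict (Om ϕ ∩ Metric.ball (0 : ℝ × ℝ) R')) :=
    ⟨by
      rw [Measure.restrict_apply_univ]
      exact (measure_mono inter_subset_right).trans_lt measure_ball_lt_top⟩
  have hfinB : IsFiniteMeasure (volume.restrict (Metric.ball (0 : ℝ) n)) :=
    ⟨by
      rw [Measure.restrict_apply_univ]
      exact measure_ball_lt_top⟩
  have hlim : Tendsto (fun k => ∫⁻ x, Gk k x ∂(volume.restrict (Metric.ball (0 : ℝ) n)))
      atTop (𝓝 0) := by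
    have l1 := l2_l1 mtr (hAp.cT n)
    have l2 := l2_l1 (fun k => (mv k).sub hAp.mu) (hAp.cu R')
    have l3 := l2_l1 (fun k => (mdy k).sub hAp.my) (hAp.cy R')
    have l4 := (l1.add l2).add l3
    rw [add_zero, add_zero] at l4
    refine tendsto_of_tendsto_of_tendsto_of_le_of_le tendsto_const_nhds l4 (fun _ => zero_le)
      fun k => ?_
    change ∫⁻ x, Gk k x ∂(volume.restrict (Metric.ball (0 : ℝ) n)) ≤ _
    simp only [hGk]
    rw [lintegral_add_right _ (mI2 k), lintegral_add_right _ (mI1 k)]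
    exact add_le_add (add_le_add le_rfl (strip_le hϕ hstrip (mF1 k)))
      (strip_le hϕ hstrip (mF2 k))
  obtain ⟨s, hs, hsae⟩ := subseq Gk mG hlim
  -- almost everywhere equality on vertical lines
  have hOm : MeasurableSet (Om ϕ) :=
    (isOpen_lt (hϕ.comp continuous_fst) continuous_snd).measurableSet
  have hline : ∀ᵐ x : ℝ, ∀ᵐ t : ℝ, 0 < t → U (x, ϕ x + t) = u (x, ϕ x + t) := by
    have h1 : ∀ᵐ p : ℝ × ℝ ∂((volume : Measure ℝ).prod (volume : Measure ℝ)),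
        p ∈ Om ϕ → U p = u p := (ae_restrict_iff' hOm).1 hUu
    have h2 := Measure.ae_ae_of_ae_prod h1
    filter_upwards [h2] with x hx
    have h3 := (measurePreserving_add_left (volume : Measure ℝ) (ϕ x)).quasiMeasurePreserving.ae hx
    filter_upwards [h3] with t ht ht0
    exact ht (by
      change ϕ x < ϕ x + t
      linarith)
  filter_upwards [hsae, ae_restrict_of_ae hline] with x hx hxl
  have hone := one_dim (fun k t => v (s k) (x, ϕ x + t)) (fun k t => dy (v (s k)) (x, ϕ x + t))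
    (fun t => u (x, ϕ x + t)) (fun t => Gy (x, ϕ x + t)) (T x)
    (fun k t => by
      have h1 := (hasDerivAt_y (hAp.c1 (s k)) x (ϕ x + t)).comp t
        ((hasDerivAt_id t).const_add (ϕ x))
      rw [mul_one] at h1
      exact h1)
    (fun k => (continuous_dy (hAp.c1 (s k))).comp (by fun_prop))
    (hAp.mu.comp (by fun_prop)) (hAp.my.comp (by fun_prop))
    (by simpa [hGk] using hx)
  obtain ⟨hgi, hae⟩ := hone
  -- limits at the boundary
  have hT1 : Tendsto (fun t : ℝ => U (x, ϕ x + t)) (𝓝[>] 0) (𝓝 (U (x, ϕ x))) := by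
    have h1 : ContinuousWithinAt U (Oc ϕ) (x, ϕ x) := hU _ (by
      change ϕ x ≤ ϕ x
      exact le_rfl)
    have h2 : Tendsto (fun t : ℝ => (x, ϕ x + t)) (𝓝[>] 0) (𝓝[Oc ϕ] (x, ϕ x)) := by
      refine tendsto_nhdsWithin_iff.2 ⟨?_, ?_⟩
      · have : Tendsto (fun t : ℝ => (x, ϕ x + t)) (𝓝 0) (𝓝 (x, ϕ x + 0)) :=
          (by fun_prop : Continuous fun t : ℝ => (x, ϕ x + t)).tendsto 0
        rw [add_zero] at this
        exact this.mono_left nhdsWithin_le_nhds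
      · filter_upwards [self_mem_nhdsWithin] with t ht
        change ϕ x ≤ ϕ x + t
        have : (0 : ℝ) < t := ht
        linarith
    exact h1.tendsto.comp h2
  have hT2 : Tendsto (fun t : ℝ => T x + ∫ s in (0 : ℝ)..t, Gy (x, ϕ x + s)) (𝓝[>] 0)
      (𝓝 (T x)) := by
    have hc : ContinuousOn (fun t => ∫ s in (0 : ℝ)..t, Gy (x, ϕ x + s)) (Icc 0 1) := by
      have := intervalIntegral.continuousOn_primitive_interval
        (f := fun s => Gy (x, ϕ x + s)) (μ := volume) (a := 0) (b := 1)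
        ((intervalIntegrable_iff_integrableOn_Icc_of_le zero_le_one).1 hgi |>.mono_set (by
          rw [uIcc_of_le zero_le_one]))
      rwa [uIcc_of_le zero_le_one] at this
    have h1 := hc 0 ⟨le_rfl, zero_le_one⟩
    have h2 : Tendsto (fun t => ∫ s in (0 : ℝ)..t, Gy (x, ϕ x + s)) (𝓝[>] 0) (𝓝 0) := by
      have h3 := h1.tendsto
      simp only [intervalIntegral.integral_same] at h3
      refine h3.mono_left ?_
      rw [← nhdsWithin_Ioo_eq_nhdsGT (zero_lt_one (α := ℝ))]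
      exact nhdsWithin_mono _ Ioo_subset_Icc_self
    have h3 := h2.const_add (T x)
    rwa [add_zero] at h3
  have hfreq : ∃ᶠ t in 𝓝[>] (0 : ℝ), T x + ∫ s in (0 : ℝ)..t, Gy (x, ϕ x + s) =
      U (x, ϕ x + t) := by
    intro hev
    rw [← nhdsWithin_Ioo_eq_nhdsGT (zero_lt_one (α := ℝ))] at hev
    have hev' : ∀ᶠ t in 𝓝[>] (0 : ℝ), ¬ (T x + ∫ s in (0 : ℝ)..t, Gy (x, ϕ x + s) =
      U (x, ϕ x + t)) := by
      rw [← nhdsWithin_Ioo_eq_nhdsGT (zero_lt_one (α := ℝ))]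
      exact hev
    obtain ⟨δ, hδ, hδ2⟩ := (mem_nhdsGT_iff_exists_Ioo_subset).1 hev'
    have hδ0 : (0 : ℝ) < δ := hδ
    have h1 : ∀ᵐ t ∂(volume.restrict (Ioo (0 : ℝ) (min δ 1))), False := by
      have h2 : ∀ᵐ t ∂(volume.restrict (Ioo (0 : ℝ) (min δ 1))),
          u (x, ϕ x + t) = T x + ∫ s in (0 : ℝ)..t, Gy (x, ϕ x + s) :=
        ae_restrict_of_ae_restrict_of_subset
          (Ioo_subset_Ioo le_rfl (min_le_right _ _)) hae
      have h3 : ∀ᵐ t ∂(volume.restrict (Ioo (0 : ℝ) (min δ 1))),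
          0 < t → U (x, ϕ x + t) = u (x, ϕ x + t) := ae_restrict_of_ae hxl
      filter_upwards [h2, h3, ae_restrict_mem measurableSet_Ioo] with t h2 h3 h4
      have h5 : t ∈ Ioo 0 δ := ⟨h4.1, h4.2.trans_le (min_le_left _ _)⟩
      exact hδ2 h5 (by rw [h3 h4.1, h2])
    rw [ae_iff] at h1
    simp only [not_false_eq_true, ofPred_true] at h1
    rw [Measure.restrict_apply_univ, Real.volume_Ioo, ENNReal.ofReal_eq_zero] at h1
    have : 0 < min δ 1 := lt_min hδ0 one_pos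
    linarith
  exact tendsto_nhds_unique_of_frequently_eq hT2 hT1 hfreq

end Pool.Agent.W597.RB
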